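import Pool.Agent.helper56.SG.SpecG

/-!
# Project sg: module KNB (mass of the kernel)
-/

set_option autoImplicit false

open MeasureTheory Set Metric Filter Topology
open scoped ENNReal NNReal ComplexConjugate
open Pool.Agent.SG

noncomputable section

namespace Pool.Agent.SGG

theorem KNB_cb (hPPF : PPF_stmt) (t : ℝ) {x : ℂ} (hx : x ∈ ball (0 : ℂ) 1) : CB (ker t x) := by
  have h1 : ContinuousOn (fun y : ℂ => pp x y) (ball (0 : ℂ) 1) :=
    hPPF.2.2.2.1.comp (f := fun y : ℂ => (x, y)) (by fun_prop) fun y hy => ⟨hx, hy⟩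
  exact continuousOn_const.sup (h1.sub continuousOn_const)

theorem KNB_zero (hPPF : PPF_stmt) {t : ℝ} (ht : 0 < t) {x : ℂ} (hx : x ∈ ball (0 : ℂ) 1) :
    ∃ σ : ℝ, σ < 1 ∧ ∀ y ∈ ball (0 : ℂ) 1, σ < ‖y‖ → ker t x y = 0 := by
  obtain ⟨σ, -, h1, h2⟩ := hPPF.2.2.2.2 t ‖x‖ ht (norm_nonneg _) (by simpa using hx)
  refine ⟨σ, h1, fun y hy hσ => ?_⟩
  have h3 : ¬ t < pp x y := fun h => absurd (h2 x y le_rfl (by simpa using hy) h) (not_le.2 hσ)
  rw [ker, max_eq_left]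
  linarith [not_lt.1 h3]

theorem KNB_int (hPPF : PPF_stmt) (hHYC : HYC_stmt) {t : ℝ} (ht : 0 < t) {x : ℂ}
    (hx : x ∈ ball (0 : ℂ) 1) {u : ℂ → ℝ} (hu : CB u) : Integrable (fun y => ker t x y * u y) hyp := by
  obtain ⟨σ, h1, h2⟩ := KNB_zero hPPF ht hx
  refine hHYC.2.2.2.2.2.1 _ ((KNB_cb hPPF t hx).mul hu) σ h1 fun z hz hσ => ?_
  rw [h2 z hz hσ, zero_mul]

theorem KNB (hPPF : PPF_stmt) (hHYC : HYC_stmt) (hCHV : CHV_stmt) (hTAU : TAU_stmt)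
    (hMOB : MOB_stmt) : KNB_stmt := by
  intro t ht0 ht1
  have h00 : (0 : ℂ) ∈ ball (0 : ℂ) 1 := mem_ball_self one_pos
  have hint0 : Integrable (ker t 0) hyp := by
    have := KNB_int hPPF hHYC ht0 h00 (u := fun _ => 1) continuousOn_const
    simpa using this
  have hnn : ∀ x y : ℂ, 0 ≤ ker t x y := fun x y => le_max_left _ _
  have hNN : 0 < NN t := by
    rcases (integral_nonneg (fun y => hnn 0 y) : 0 ≤ ∫ y, ker t 0 y ∂hyp).lt_or_eq with h | h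
    · exact h
    · have h1 := hHYC.2.2.2.2.2.2 (ker t 0) (KNB_cb hPPF t h00) (fun z _ => hnn 0 z) hint0 h.symm 0 h00
      rw [ker, hPPF.2.1 0 h00] at h1
      have h2 : 1 - t ≤ 0 := by
        rw [← h1]
        exact le_max_right _ _
      linarith
  refine ⟨hNN, fun x hx => ⟨KNB_cb hPPF t hx, ?_, fun u hu => KNB_int hPPF hHYC ht0 hx hu⟩⟩
  obtain ⟨a, b, hab, hm⟩ := hTAU x hx
  rw [← hCHV a b hab (ker t x) (KNB_cb hPPF t hx)]
  refine integral_congr_ae ?_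
  have h3 : ∀ᵐ z ∂hyp, z ∈ ball (0 : ℂ) 1 := by
    rw [ae_iff]
    exact hHYC.1
  filter_upwards [h3] with z hz
  have h4 := (hMOB a b hab).2.2.2.2.2.2.2.1 0 h00 z hz
  rw [hm] at h4
  show max 0 (pp x (mob a b z) - t) = max 0 (pp 0 z - t)
  rw [h4]

end Pool.Agent.SGG
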