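import Pool.Agent.helper3.SG.SpecN

/-!
# Project sg: module N02 (small mass behind a hole)
-/

set_option autoImplicit false

open MeasureTheory Set Metric Filter Topology
open scoped ENNReal NNReal ComplexConjugate commutatorElement

namespace Pool.Agent.SG

theorem N02_conj {u z : ℂ} (hu : ‖u‖ = 1) : ‖1 - conj z * u‖ = ‖u - z‖ := by
  have h1 : conj u * u = 1 := by
    rw [Complex.conj_mul', hu]
    norm_num
  have h2 : 1 - conj z * u = conj (u - z) * u := by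
    rw [map_sub, sub_mul, h1]
  rw [h2, norm_mul, hu, mul_one, RCLike.norm_conj]

theorem N02_far {Γ : Type} [Group Γ] {A : DiscRep Γ} {τ : ℝ} {u ξ : ℂ} {q : Γ} (hτ0 : 0 < τ)
    (hτ1 : τ ≤ 1 / 4) (hu : ‖u‖ = 1) (hq : τ ≤ A.Hu u q) (hξ : ‖ξ - u‖ ≤ τ / 2) :
    τ / 8 ≤ ‖ξ - A.pt q‖ := by
  by_contra h
  rw [not_le] at h
  have h1 : ‖u - A.pt q‖ ≤ ‖ξ - u‖ + ‖ξ - A.pt q‖ := by
    have : u - A.pt q = -(ξ - u) + (ξ - A.pt q) := by ring
    rw [this]
    refine (norm_add_le _ _).trans ?_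
    rw [norm_neg]
  have h2 : ‖u - A.pt q‖ < 5 * τ / 8 := by linarith
  have h3 : 3 / 2 < ‖u + A.pt q‖ := by
    have h4 : ‖u + u‖ ≤ ‖u + A.pt q‖ + ‖u - A.pt q‖ := by
      have : u + u = (u + A.pt q) + (u - A.pt q) := by ring
      rw [this]
      exact norm_add_le _ _
    have h5 : ‖u + u‖ = 2 := by
      rw [← two_mul, norm_mul, hu]
      norm_num
    linarith
  have h4 : A.Hu u q < τ := by
    unfold DiscRep.Hu
    rw [div_lt_iff₀ (by linarith)]
    nlinarith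
  linarith

theorem N02 (hP05 : P05_stmt) (hP08 : P08_stmt) (hB01 : B01_stmt) (hB03 : B03_stmt)
    (hB04 : B04_stmt) (hB09 : B09_stmt) (hB10 : B10_stmt) (hB14 : B14_stmt) (hB18 : B18_stmt)
    (hM01 : M01_stmt) (hM03 : M03_stmt) (hM04 : M04_stmt) : N02_stmt := by
  classical
  intro Γ _ A W ν hS C hC hhit c hc0 hc1
  obtain ⟨M, hM1, hM⟩ := hB10 Γ A (W.S.image fun s => s⁻¹)
  obtain ⟨C₉, hC₉, h9⟩ := hB09 Γ A hS.disc M hM1
  obtain ⟨b1, b2, b3, b4, b5, b6, b7, b8, b9, b10⟩ := hB01 Γ A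
  obtain ⟨k1, k2, k3, k4, k5, k6, k7, k8, k9, k10, k11, k12⟩ := hB03 Γ A
  obtain ⟨m1, m2, m3, m4, m5, m6⟩ := hM01 Γ A W ν hS.toStat
  haveI : Infinite Γ := (hB14 Γ A).1 hS.nonel
  haveI := hS.prob
  refine ⟨C * (4 / c ^ 2) * (C₉ * 9), by positivity, ?_⟩
  intro τ u x hτ0 hτc hu hole hx
  have hτ1 : τ ≤ 1 / 4 := by linarith
  have hI : MeasurableSet (circ ∩ closedBall u (τ / 2)) :=
    isClosed_sphere.measurableSet.inter isClosed_closedBall.measurableSet
  obtain ⟨E, hE⟩ : ∃ E, E = A.act x⁻¹ ⁻¹' (circ ∩ closedBall u (τ / 2)) := ⟨_, rfl⟩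
  have hEm : MeasurableSet E := by rw [hE]; exact b8 x⁻¹ hI
  rw [← hE]
  have hpu : ∀ γ, 0 < ‖u + A.pt γ‖ ∧ ‖u + A.pt γ‖ ≤ 2 := by
    intro γ
    constructor
    · rw [norm_pos_iff]
      intro h
      have h1 : u = -A.pt γ := eq_neg_of_add_eq_zero_left h
      have h2 := k4 γ
      rw [h1, norm_neg] at hu
      linarith
    · have := norm_add_le u (A.pt γ)
      linarith [k4 γ]
  -- (a)
  have h1D : τ ≤ A.Hu u x⁻¹ := by
    unfold DiscRep.Hu
    rw [le_div_iff₀ (hpu _).1]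
    have := (hpu x⁻¹).2
    nlinarith
  -- (b)
  obtain ⟨D, hD⟩ : ∃ D : Set Γ, D = {y | τ ≤ A.Hu u (x⁻¹ * y)} := ⟨_, rfl⟩
  have hfin : ∀ ε : ℝ≥0∞, ε ≠ 0 → {y | y ∈ D ∧ ε < nux A ν y E}.Finite := by
    intro ε hε
    obtain ⟨r, hr0, hr⟩ := hM04 ν hS.supp (hM03 Γ A W ν hS.toStat hS.nonel) ε hε
    have hf := (hB14 Γ A).2.2 hS.disc (r * τ / 8) (by positivity)
    refine (hf.image fun q => x * q).subset ?_
    rintro y ⟨hyD, hy⟩
    refine ⟨x⁻¹ * y, ?_, by simp⟩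
    rw [hD] at hyD
    have hq : τ ≤ A.Hu u (x⁻¹ * y) := hyD
    obtain ⟨q, hqdef⟩ : ∃ q, q = x⁻¹ * y := ⟨_, rfl⟩
    rw [← hqdef] at hq ⊢
    have hyq : y = x * q := by rw [hqdef]; simp
    rw [hyq, m4 x q E hEm, m5 q _ (b8 x hEm)] at hy
    show r * τ / 8 ≤ A.kk q
    by_contra hlt
    rw [not_le] at hlt
    refine absurd hy (not_lt.2 ?_)
    refine le_trans ?_ (hr (A.pt q⁻¹))
    refine measure_mono_ae ?_
    have hcirc : ∀ᵐ η ∂ν, η ∈ circ := by
      rw [ae_iff]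
      exact hS.supp
    filter_upwards [hcirc] with η hη hmem
    have hη1 : ‖η‖ = 1 := by
      have : η ∈ sphere (0 : ℂ) 1 := hη
      simpa using this
    have hact : ‖A.act q η‖ = 1 := b3 q η hη1
    have h1 : A.act x (A.act q η) ∈ E := hmem
    rw [hE] at h1
    have h2 : A.act x⁻¹ (A.act x (A.act q η)) ∈ circ ∩ closedBall u (τ / 2) := h1
    rw [b6 x _ hact.le] at h2
    have h3 : ‖A.act q η - u‖ ≤ τ / 2 := by
      have := h2.2
      rwa [mem_closedBall, dist_eq_norm] at this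
    have h4 := N02_far hτ0 hτ1 hu hq h3
    have h5 := (hB04 Γ A q).1 η hη1
    show η ∈ closedBall (A.pt q⁻¹) r
    rw [mem_closedBall, dist_eq_norm]
    have h6 : τ / 8 * ‖η - A.pt q⁻¹‖ ≤ A.kk q := by
      rw [← h5]
      exact mul_le_mul_of_nonneg_right h4 (norm_nonneg _)
    have h7 : τ / 8 * ‖η - A.pt q⁻¹‖ ≤ τ / 8 * r := by linarith
    exact le_of_mul_le_mul_left h7 (by positivity)
  -- (c)
  have hP := hP08 Γ W D (fun y => nux A ν y E) (m6 E hEm)
    ⟨1, ENNReal.one_ne_top, fun y => by haveI := m1 y; exact prob_le_one⟩ hfin 1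
  have hν : ν E = ∑' w, W.exi D 1 w * nux A ν w E := by
    rw [← hP, m3]
  obtain ⟨e1, e2, e3, e4, e5, e6⟩ := hP05 Γ W D
  obtain ⟨L, hL⟩ : ∃ L : Set Γ, L = {γ | A.Hu u γ ≤ 1 ∧ A.Hu u γ ≤ M * τ ∧
      |A.Hu u γ - τ| ≤ M * A.kk γ ∧ A.kk γ ≤ 9 * τ * τ} := ⟨_, rfl⟩
  have hterm : ∀ p, W.exi D 1 (x * p) * nux A ν (x * p) E ≤
      ENNReal.ofReal (C * (4 / c ^ 2) * A.kk x) * L.indicator A.ke p := by
    intro p
    haveI := m1 (x * p)
    refine (mul_le_of_le_one_right' prob_le_one).trans ?_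
    by_cases h0 : W.exi D 1 (x * p) = 0
    · rw [h0]
      exact bot_le
    · obtain ⟨h1, h2⟩ := e3 1 (x * p) h0
      rw [hD] at h1
      have h1' : A.Hu u p < τ := by
        have h4 : ¬ τ ≤ A.Hu u (x⁻¹ * (x * p)) := h1
        rw [inv_mul_cancel_left] at h4
        exact not_le.1 h4
      have hp1 : A.Hu u p ≤ 1 := by linarith
      obtain ⟨y, hy, s, hs, hw⟩ : ∃ y ∈ D, ∃ s ∈ W.S, x * p = y * s := by
        rcases h2 with h2 | h2
        · exfalso
          rw [h2] at h1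
          refine h1 ?_
          show τ ≤ A.Hu u (x⁻¹ * 1)
          rw [mul_one]
          exact h1D
        · exact h2
      have hq : τ ≤ A.Hu u (p * s⁻¹) := by
        have h5 : x⁻¹ * y = p * s⁻¹ := by
          rw [inv_mul_eq_iff_eq_mul, ← mul_assoc, hw, mul_inv_cancel_right]
        rw [hD] at hy
        have h6 : τ ≤ A.Hu u (x⁻¹ * y) := hy
        rwa [h5] at h6
      have hs' : s⁻¹ ∈ W.S.image fun s => s⁻¹ := Finset.mem_image_of_mem _ hs
      have h7 := ((hM p s⁻¹ hs').2.2.2 u hu).2 hp1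
      have h8 : |A.Hu u p - τ| ≤ M * A.kk p := by
        rw [abs_le] at h7 ⊢
        constructor <;> linarith [h7.2, h7.1, mul_nonneg (by linarith : (0 : ℝ) ≤ M) (k1 p).1.le]
      obtain ⟨-, -, h9', -⟩ := hB18 Γ A u hu
      have h10 : ‖u - A.pt p‖ ≤ 2 * τ := by
        have := (h9' p hp1).2.2.1
        linarith
      have h11 : A.kk p ≤ 9 * τ * τ := by
        refine (hole p).trans ?_
        have h12 : τ + ‖u - A.pt p‖ ≤ 3 * τ := by linarith
        have h13 : 0 ≤ τ + ‖u - A.pt p‖ := by positivity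
        nlinarith
      have hpL : p ∈ L := by
        rw [hL]
        refine ⟨hp1, ?_, h8, h11⟩
        nlinarith
      rw [indicator_of_mem hpL]
      have h14 : c / 2 ≤ ‖1 - conj (A.pt x⁻¹) * A.pt p‖ := by
        have h15 : ‖1 - conj (A.pt x⁻¹) * u‖ = ‖u - A.pt x⁻¹‖ := N02_conj hu
        have h16 : ‖1 - conj (A.pt x⁻¹) * u‖ ≤ ‖1 - conj (A.pt x⁻¹) * A.pt p‖ +
            ‖conj (A.pt x⁻¹) * (u - A.pt p)‖ := by
          have : 1 - conj (A.pt x⁻¹) * u = (1 - conj (A.pt x⁻¹) * A.pt p) -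
              conj (A.pt x⁻¹) * (u - A.pt p) := by ring
          rw [this]
          exact norm_sub_le _ _
        have h17 : ‖conj (A.pt x⁻¹) * (u - A.pt p)‖ ≤ 2 * τ := by
          rw [norm_mul, RCLike.norm_conj]
          calc ‖A.pt x⁻¹‖ * ‖u - A.pt p‖ ≤ 1 * (2 * τ) :=
                mul_le_mul (k4 _).le h10 (norm_nonneg _) zero_le_one
            _ = 2 * τ := one_mul _
        linarith
      have h18 : A.kk (x * p) ≤ 4 / c ^ 2 * A.kk x * A.kk p := by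
        have h19 := k7 x p
        have h20 : (c / 2) ^ 2 ≤ ‖1 - conj (A.pt x⁻¹) * A.pt p‖ ^ 2 :=
          pow_le_pow_left₀ (by positivity) h14 2
        have h21 : A.kk (x * p) * (c / 2) ^ 2 ≤ A.kk x * A.kk p := by
          rw [← h19]
          exact mul_le_mul_of_nonneg_left h20 (k1 _).1.le
        have h22 : A.kk (x * p) = 4 / c ^ 2 * (A.kk (x * p) * (c / 2) ^ 2) := by
          field_simp
          norm_num
        rw [h22, mul_assoc (4 / c ^ 2)]
        exact mul_le_mul_of_nonneg_left h21 (by positivity)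
      refine (e2 1 (x * p)).trans ((hhit (x * p)).trans ?_)
      rw [DiscRep.ke, ← ENNReal.ofReal_mul (by have := (k1 x).1; positivity)]
      refine ENNReal.ofReal_le_ofReal ?_
      calc C * A.kk (x * p) ≤ C * (4 / c ^ 2 * A.kk x * A.kk p) :=
            mul_le_mul_of_nonneg_left h18 hC.le
        _ = _ := by ring
  rw [hν, ← (Equiv.mulLeft x).tsum_eq]
  have hsum : ∑' p, W.exi D 1 ((Equiv.mulLeft x) p) * nux A ν ((Equiv.mulLeft x) p) E ≤
      ∑' p, ENNReal.ofReal (C * (4 / c ^ 2) * A.kk x) * L.indicator A.ke p :=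
    ENNReal.tsum_le_tsum fun p => hterm p
  refine hsum.trans ?_
  rw [ENNReal.tsum_mul_left]
  have h23 := h9 u τ (9 * τ) hu hτ0 (by linarith) (by positivity)
  rw [← hL] at h23
  refine (mul_le_mul_right h23 _).trans ?_
  rw [← ENNReal.ofReal_mul (by have := (k1 x).1; positivity)]
  refine ENNReal.ofReal_le_ofReal (le_of_eq ?_)
  ring

end Pool.Agent.SG
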