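import Pool.Agent.helper80.SG.Spec2

/-!
# Project sq: module CN1 (one component without the simple points)
-/

set_option autoImplicit false
set_option linter.unusedSectionVars false

namespace Pool.Agent.SG

open MvPolynomial Module Pool.Agent.SV

theorem CN1_sum {g : ℕ} (role : Fin g → Fin 4) (r : Fin 4 → ℕ) :
    ∑ γ, r (role γ) = ∑ ρ, (Finset.univ.filter (fun γ => role γ = ρ)).card * r ρ := by
  classical
  rw [← Finset.sum_fiberwise Finset.univ role (fun γ => r (role γ))]
  refine Finset.sum_congr rfl fun ρ _ => ?_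
  rw [Finset.sum_congr rfl (g := fun _ => r ρ)
    (fun γ hγ => by rw [(Finset.mem_filter.1 hγ).2]), Finset.sum_const, smul_eq_mul]

theorem CN1_num {g : ℕ} (role : Fin g → Fin 4) : ∃ e : Fin g → ℕ, ∀ ρ, ∀ i,
    i < (Finset.univ.filter (fun γ => role γ = ρ)).card → ∃ γ, role γ = ρ ∧ e γ = i := by
  classical
  have E : ∀ ρ, ∃ h : {γ // role γ = ρ} → ℕ, ∀ i,
      i < (Finset.univ.filter (fun γ => role γ = ρ)).card → ∃ γ, h γ = i := by
    intro ρ
    refine ⟨fun γ => (Fintype.equivFin {γ // role γ = ρ} γ : ℕ), fun i hi => ?_⟩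
    have hc : Fintype.card {γ // role γ = ρ} = (Finset.univ.filter (fun γ => role γ = ρ)).card :=
      Fintype.card_subtype _
    refine ⟨(Fintype.equivFin {γ // role γ = ρ}).symm ⟨i, by rw [hc]; exact hi⟩, ?_⟩
    simp
  choose h hh using E
  refine ⟨fun γ => h (role γ) ⟨γ, rfl⟩, fun ρ i hi => ?_⟩
  obtain ⟨⟨γ, hγ⟩, h2⟩ := hh ρ i hi
  subst hγ
  exact ⟨γ, rfl, h2⟩

theorem CN1 (hTT5 : TT5_stmt) : CN1_stmt := by
  intro ι κ _ _ _ _ c T d hc hT1 hT2 hT3 hD b g role h1 h2
  classical
  obtain ⟨q, hq⟩ : ∃ q : Fin 4 → ℕ, ∀ ρ, q ρ = (Finset.univ.filter (fun γ => role γ = ρ)).card :=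
    ⟨_, fun _ => rfl⟩
  have hs : ∀ r : Fin 4 → ℕ, ∑ γ, r (role γ) = ∑ ρ, q ρ * r ρ := by
    intro r
    rw [CN1_sum role r]
    exact Finset.sum_congr rfl fun ρ _ => by rw [hq]
  have e1 := hs (rk (Dk c Finset.univ d))
  have e2 := hs (rkb (Dk c Finset.univ d))
  rw [e1] at h1
  rw [e2, Fin.sum_univ_four] at h2
  have r0 : rkb (Dk c Finset.univ d) 0 = 0 := rfl
  have r1 : rkb (Dk c Finset.univ d) 1 = 0 := rfl
  have r2 : rkb (Dk c Finset.univ d) 2 = Dk c Finset.univ d + 2 := rfl
  have r3 : rkb (Dk c Finset.univ d) 3 = 2 * Dk c Finset.univ d := rfl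
  rw [r0, r1, r2, r3] at h2
  obtain ⟨a, ha0, ha1, h3⟩ : ∃ a : Option (Fin 4) → ℕ, a none = b ∧ (∀ ρ, a (some ρ) = q ρ) ∧
      dmM (Phi5 c T d) a + b * Dk c Finset.univ d + ∑ ρ, q ρ * rk (Dk c Finset.univ d) ρ =
      finrank ℂ (Sec c Finset.univ d) :=
    ⟨_, rfl, fun _ => rfl, hTT5 c T d hc hT1 hT2 hT3 hD b q h1 (by linarith)⟩
  obtain ⟨z, hz⟩ := exists_dmM (Phi5 c T d) a
  obtain ⟨e, he⟩ := CN1_num role
  refine ⟨fun i => z none i, fun γ => z (some (role γ)) (e γ), ?_⟩
  have hle : ((⨅ i : Fin b, LinearMap.ker (PhiC c T d true (z none i))) ⊓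
        ⨅ γ, LinearMap.ker (roleS c T d (role γ) (z (some (role γ)) (e γ)))) ≤
      KerS (Phi5 c T d) (fun t => Finset.range (a t)) z := by
    intro f hf
    rw [Submodule.mem_inf, Submodule.mem_iInf, Submodule.mem_iInf] at hf
    obtain ⟨hf1, hf2⟩ := hf
    rw [mem_KerS]
    intro t i hi
    rw [Finset.mem_range] at hi
    cases t with
    | none =>
      have hi' : i < b := by rwa [ha0] at hi
      have h4 := LinearMap.mem_ker.1 (hf1 ⟨i, hi'⟩)
      funext o
      rw [Phi5_apply]
      split_ifs with ho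
      · rcases o with _ | ⟨a', _ | j⟩
        · exact absurd ho (by simp [used5])
        · exact absurd ho (by simp [used5])
        · have ha' : a' = 0 := by simpa [used5] using ho
          subst ha'
          have h5 := congrFun h4 (0, j)
          rw [PhiC_apply, if_neg (by simp)] at h5
          have h6 : roleF c T (z none i) (some (0, some j)) (f : MvPolynomial ι ℂ) =
              eval (ptc c T 0 (z none i)) (pderiv j (f : MvPolynomial ι ℂ)) := by
            simp [roleF]
          rw [h6]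
          exact h5
      · rfl
    | some ρ =>
      have hi' : i < q ρ := by rwa [ha1] at hi
      rw [hq] at hi'
      obtain ⟨γ, hγ, hγ2⟩ := he ρ i hi'
      have h4 := LinearMap.mem_ker.1 (hf2 γ)
      rw [hγ, hγ2] at h4
      funext o
      rw [Phi5_apply]
      split_ifs with ho
      · have h5 := congrFun h4 o
        have hu : used ρ o = true := by
          rcases o with _ | ⟨a', _ | j⟩
          · simpa [used5, used] using ho
          · rfl
          · simpa [used5, used] using ho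
        have h6 : roleS c T d ρ (z (some ρ) i) f o = roleF c T (z (some ρ) i) o (f : MvPolynomial ι ℂ) := by
          simp [roleS, roleL, hu]
        rw [← h6]
        exact h5
      · rfl
  have h7 := Submodule.finrank_mono hle
  rw [hz] at h7
  rw [e1]
  refine le_trans h7 ?_
  omega

end Pool.Agent.SG
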