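import Pool.Agent.helper80.SG.Spec

/-!
# Project sg (MP_b5a345_ag): module VSC
-/

set_option autoImplicit false
set_option linter.unusedSectionVars false

namespace Pool.Agent.SG

open MvPolynomial Module Pool.Agent.SV

theorem VSC (hVIS : VIS_stmt) : VSC_stmt := by
  intro ι κ _ _ _ _ c T d hd f hf
  have hf' : (f : MvPolynomial ι ℂ) ≠ 0 := fun h => hf (Subtype.ext h)
  obtain ⟨w, hw⟩ : ∃ w : ι → ℂ, eval w (f : MvPolynomial ι ℂ) ≠ 0 := by
    by_contra h
    refine hf' (MvPolynomial.funext fun x => ?_)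
    rw [map_zero]
    by_contra h1
    exact h ⟨x, h1⟩
  have hcut : ∀ x : ι → ℂ, cut Finset.univ x = x := fun x => by
    funext i
    simp [cut]
  obtain ⟨p, hp⟩ := hVIS c Finset.univ Finset.univ d hd f f.2 ⟨w, by rw [hcut]; exact hw⟩
  rw [hcut] at hp
  obtain ⟨i, hi⟩ := Function.ne_iff.1 hp
  rw [gradL_apply, if_pos (Finset.mem_univ i)] at hi
  refine ⟨(p, 0), fun h => hi ?_⟩
  have h1 := congrFun h (0, i)
  rw [PhiC_apply, if_neg (by simp)] at h1
  have h2 : ptc c T 0 (p, 0) = p := by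
    funext j
    simp [ptc]
  rw [h2] at h1
  exact h1

end Pool.Agent.SG
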